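import Pool.Agent.H79.GPLower

/-!
# The growth of `N(k)`: between quadratic and cubic
-/

namespace Pool.Agent.Results.MP_4c1c99_co.CubicBound

open Pool.Agent.H79.GPos

/-- For `k ≥ 4`: `N(k)` exists (every configuration with line cover number at most `k` and at least
`N(k)` points satisfies `GP = ⌈ONLINE / 2⌉`) and `2(k-1)(k-2) + 1 < N(k) ≤ 4000 k³`. -/
theorem result : ∀ k : ℕ, 4 ≤ k →
    Good k (N k) ∧ 2 * (k - 1) * (k - 2) + 1 < N k ∧ N k ≤ 4000 * k ^ 3 :=
  fun k hk => ⟨good_N k, lower_N k hk, N_le k⟩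

end Pool.Agent.Results.MP_4c1c99_co.CubicBound
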