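import Pool.Agent.H79.GPPT

/-!
# A polynomial kernel for general-position partitions, parameterised by the line cover number
-/

namespace Pool.Agent.Results.MP_4c1c99_co.PolynomialKernel

open Pool.Agent.H79.GPos

/-- There are a function `f` that is computed by a deterministic Turing machine in polynomial time
and a polynomial `P` such that `f` maps every instance `(L, g)` (a list of distinct rational points
and a number, written in binary) to an equivalent instance `(L', g')` with at most `P(LC(L))` points
and with `g' ≤ P(LC(L))`. -/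
theorem result : ∃ f ∈ Pool.Agent.PPS.FP, ∃ P : Polynomial ℕ, ∀ (L : List (ℚ × ℚ)) (g : ℕ),
    L.Nodup → ∃ (L' : List (ℚ × ℚ)) (g' : ℕ), L'.Nodup ∧ f (inst L g) = inst L' g' ∧
      (gp (config L) ≤ g ↔ gp (config L') ≤ g') ∧
      L'.length ≤ P.eval (lc (config L)) ∧ g' ≤ P.eval (lc (config L)) := by
  refine ⟨kalgo, kalgo_mem_FP, 64000 * Polynomial.X ^ 5 + 1, fun L g hL => ?_⟩
  obtain ⟨L', g', h1, h2, h3, h4, h5⟩ := kalgo_spec L g hL
  refine ⟨L', g', h1, h2, h3, ?_, ?_⟩ <;> simpa using by assumption

end Pool.Agent.Results.MP_4c1c99_co.PolynomialKernel
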